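import Mathlib
import Pool.Agent.W743.GV.Stm

namespace Pool.Agent.W991.GV

open Set
open scoped ContDiff
open Pool.Agent.W743.GV

variable {d : ℝ} {b f : ℝ → ℝ}

theorem pos_J (h : Data d b f) {s : ℝ} (hs : s ∈ J d) : 0 < s := by
  have h1 := h.hd1
  have h2 := hs.1
  linarith

theorem hasb (h : Data d b f) {P : ℝ} (hP : P ∈ J d) : HasDerivAt b (deriv b P) P :=
  ((h.cb.differentiableOn (by simp)).differentiableAt (isOpen_Ioo.mem_nhds hP)).hasDerivAt

theorem hasf (h : Data d b f) {P : ℝ} (hP : P ∈ J d) : HasDerivAt f (deriv f P) P :=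
  ((h.cf.differentiableOn (by simp)).differentiableAt (isOpen_Ioo.mem_nhds hP)).hasDerivAt

theorem dMP (h : Data d b f) (s : ℝ) {P : ℝ} (hP : P ∈ J d) :
    HasDerivAt (fun P => MM b f s P) (MP b f s P) P := by
  have h1 : HasDerivAt (fun P => b P - s) (deriv b P) P := (hasb h hP).sub_const s
  have h2 : HasDerivAt (fun P => f P - (b P - s)) (deriv f P - deriv b P) P :=
    (hasf h hP).sub h1
  have h0 : HasDerivAt (fun P : ℝ => 3 * P) 3 P := by
    simpa using (hasDerivAt_id P).const_mul (3 : ℝ)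
  have h3 := ((h0.sub (h1.pow 2)).const_mul s).sub (h2.pow 2)
  refine HasDerivAt.congr_deriv h3 ?_
  unfold MP
  push_cast
  ring

theorem dMS (s P : ℝ) : HasDerivAt (fun s => MM b f s P) (MS b f s P) s := by
  have h1 : HasDerivAt (fun s => b P - s) (-1) s := (hasDerivAt_id s).const_sub (b P)
  have h2 : HasDerivAt (fun s => f P - (b P - s)) (-(-1)) s := h1.const_sub (f P)
  have h3 := ((hasDerivAt_id s).mul ((h1.pow 2).const_sub (3 * P))).sub (h2.pow 2)
  refine HasDerivAt.congr_deriv h3 ?_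
  unfold MS
  simp only [id, Pi.pow_apply]
  push_cast
  ring

theorem dQP (h : Data d b f) (s : ℝ) {P : ℝ} (hP : P ∈ J d) :
    HasDerivAt (fun P => QQ b f s P) (QP b f s P) P := by
  have h1 : HasDerivAt (fun P => b P - s) (deriv b P) P := (hasb h hP).sub_const s
  have h2 : HasDerivAt (fun P => f P - (b P - s)) (deriv f P - deriv b P) P :=
    (hasf h hP).sub h1
  exact (h1.const_mul s).sub h2

/-- the coefficients of the one-form -/
noncomputable def AA (b f : ℝ → ℝ) (z : ℝ × ℝ) : ℝ :=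
  QQ b f z.1 z.2 / (2 * z.1 * √(MM b f z.1 z.2))

/-- the coefficients of the one-form -/
noncomputable def BB (b f : ℝ → ℝ) (z : ℝ × ℝ) : ℝ := 1 / (2 * √(MM b f z.1 z.2))

/-- the one-form -/
noncomputable def om (b f : ℝ → ℝ) (z : ℝ × ℝ) : ℝ × ℝ →L[ℝ] ℝ :=
  AA b f z • ContinuousLinearMap.fst ℝ ℝ ℝ + BB b f z • ContinuousLinearMap.snd ℝ ℝ ℝ

theorem smooth (h : Data d b f) :
    ContDiffOn ℝ ∞ (AA b f) (J d ×ˢ J d) ∧ ContDiffOn ℝ ∞ (BB b f) (J d ×ˢ J d) := by
  have hb' : ContDiffOn ℝ ∞ (fun z : ℝ × ℝ => b z.2) (J d ×ˢ J d) :=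
    h.cb.comp contDiff_snd.contDiffOn (fun z hz => hz.2)
  have hf' : ContDiffOn ℝ ∞ (fun z : ℝ × ℝ => f z.2) (J d ×ˢ J d) :=
    h.cf.comp contDiff_snd.contDiffOn (fun z hz => hz.2)
  have h1 : ContDiffOn ℝ ∞ (fun z : ℝ × ℝ => z.1) (J d ×ˢ J d) := contDiff_fst.contDiffOn
  have h2 : ContDiffOn ℝ ∞ (fun z : ℝ × ℝ => z.2) (J d ×ˢ J d) := contDiff_snd.contDiffOn
  have h3 : ContDiffOn ℝ ∞ (fun z : ℝ × ℝ => b z.2 - z.1) (J d ×ˢ J d) := hb'.sub h1
  have hM : ContDiffOn ℝ ∞ (fun z : ℝ × ℝ => MM b f z.1 z.2) (J d ×ˢ J d) :=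
    (h1.mul ((contDiffOn_const.mul h2).sub (h3.pow 2))).sub ((hf'.sub h3).pow 2)
  have hQ : ContDiffOn ℝ ∞ (fun z : ℝ × ℝ => QQ b f z.1 z.2) (J d ×ˢ J d) :=
    (h1.mul h3).sub (hf'.sub h3)
  have hR : ContDiffOn ℝ ∞ (fun z : ℝ × ℝ => √(MM b f z.1 z.2)) (J d ×ˢ J d) :=
    hM.sqrt (fun z hz => (h.Mpos z.1 hz.1 z.2 hz.2).ne')
  have hRne : ∀ z ∈ J d ×ˢ J d, √(MM b f z.1 z.2) ≠ 0 := fun z hz =>
    (Real.sqrt_pos.2 (h.Mpos z.1 hz.1 z.2 hz.2)).ne'
  constructor
  · refine hQ.div ((contDiffOn_const.mul h1).mul hR) ?_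
    intro z hz
    have := pos_J h hz.1
    exact mul_ne_zero (mul_ne_zero two_ne_zero this.ne') (hRne z hz)
  · refine contDiffOn_const.div (contDiffOn_const.mul hR) ?_
    intro z hz
    exact mul_ne_zero two_ne_zero (hRne z hz)

theorem smooth_om (h : Data d b f) : ContDiffOn ℝ ∞ (om b f) (J d ×ˢ J d) :=
  ((smooth h).1.smul contDiffOn_const).add ((smooth h).2.smul contDiffOn_const)

theorem cross (hID : S_ID) (h : Data d b f) {a : ℝ × ℝ} (ha : a ∈ J d ×ˢ J d) :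
    fderiv ℝ (AA b f) a (0, 1) = fderiv ℝ (BB b f) a (1, 0) := by
  obtain ⟨s, P⟩ := a
  obtain ⟨hs, hP⟩ : s ∈ J d ∧ P ∈ J d := ha
  have hopen : IsOpen (J d ×ˢ J d) := isOpen_Ioo.prod isOpen_Ioo
  have hA : DifferentiableAt ℝ (AA b f) (s, P) :=
    ((smooth h).1.differentiableOn (by simp)).differentiableAt (hopen.mem_nhds ⟨hs, hP⟩)
  have hB : DifferentiableAt ℝ (BB b f) (s, P) :=
    ((smooth h).2.differentiableOn (by simp)).differentiableAt (hopen.mem_nhds ⟨hs, hP⟩)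
  have hs0 := pos_J h hs
  have hM0 := h.Mpos s hs P hP
  have hR0 : 0 < √(MM b f s P) := Real.sqrt_pos.2 hM0
  have hRsq : √(MM b f s P) ^ 2 = MM b f s P := Real.sq_sqrt hM0.le
  have lA : HasDerivAt (fun P' => AA b f (s, P')) (fderiv ℝ (AA b f) (s, P) (0, 1)) P :=
    HasFDerivAt.comp_hasDerivAt (f := fun P' : ℝ => ((s, P') : ℝ × ℝ)) P hA.hasFDerivAt
      ((hasDerivAt_const P s).prodMk (hasDerivAt_id P))
  have lB : HasDerivAt (fun s' => BB b f (s', P)) (fderiv ℝ (BB b f) (s, P) (1, 0)) s :=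
    HasFDerivAt.comp_hasDerivAt (f := fun s' : ℝ => ((s', P) : ℝ × ℝ)) s hB.hasFDerivAt
      ((hasDerivAt_id s).prodMk (hasDerivAt_const s P))
  have rA := (dQP h s hP).div (((dMP h s hP).sqrt hM0.ne').const_mul (2 * s))
    (mul_pos (mul_pos two_pos hs0) hR0).ne'
  have rB := (hasDerivAt_const s (1 : ℝ)).div (((dMS (b := b) (f := f) s P).sqrt
    hM0.ne').const_mul 2) (mul_pos two_pos hR0).ne'
  have eA := lA.unique rA
  have eB := lB.unique rB
  rw [eA, eB]
  have hid := hID d b f h s hs P hP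
  rw [← hRsq] at hid
  set R := √(MM b f s P) with hR
  field_simp
  linear_combination hid

/-- Poincare lemma -/
theorem t_POT (hID : S_ID) : S_POT := by
  intro d b f h
  have hopen : IsOpen (J d ×ˢ J d) := isOpen_Ioo.prod isOpen_Ioo
  have hconv : Convex ℝ (J d ×ˢ J d) := (convex_Ioo _ _).prod (convex_Ioo _ _)
  have hsm := smooth_om h
  obtain ⟨Z, hZ⟩ := hconv.exists_forall_hasFDerivAt_of_fderiv_symmetric hopen
    (hsm.differentiableOn (by simp)) (by
      intro a ha x y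
      have hA : DifferentiableAt ℝ (AA b f) a :=
        ((smooth h).1.differentiableOn (by simp)).differentiableAt (hopen.mem_nhds ha)
      have hB : DifferentiableAt ℝ (BB b f) a :=
        ((smooth h).2.differentiableOn (by simp)).differentiableAt (hopen.mem_nhds ha)
      have hom : HasFDerivAt (om b f)
          ((fderiv ℝ (AA b f) a).smulRight (ContinuousLinearMap.fst ℝ ℝ ℝ) +
            (fderiv ℝ (BB b f) a).smulRight (ContinuousLinearMap.snd ℝ ℝ ℝ)) a :=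
        HasFDerivAt.add (hA.hasFDerivAt.smul_const (ContinuousLinearMap.fst ℝ ℝ ℝ))
          (hB.hasFDerivAt.smul_const (ContinuousLinearMap.snd ℝ ℝ ℝ))
      rw [hom.fderiv]
      have hx : ∀ (g : ℝ × ℝ →L[ℝ] ℝ) (u : ℝ × ℝ), g u = u.1 * g (1, 0) + u.2 * g (0, 1) := by
        intro g u
        have : u = u.1 • ((1, 0) : ℝ × ℝ) + u.2 • ((0, 1) : ℝ × ℝ) := by
          ext <;> simp
        conv_lhs => rw [this]
        rw [map_add, map_smul, map_smul]
        rfl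
      have hc := cross hID h ha
      simp only [ContinuousLinearMap.add_apply, ContinuousLinearMap.smulRight_apply,
        ContinuousLinearMap.smul_apply, ContinuousLinearMap.coe_fst', ContinuousLinearMap.coe_snd',
        smul_eq_mul]
      rw [hx (fderiv ℝ (AA b f) a) x, hx (fderiv ℝ (AA b f) a) y, hx (fderiv ℝ (BB b f) a) x,
        hx (fderiv ℝ (BB b f) a) y, hc]
      ring)
  refine ⟨Z, ?_, fun z hz => hZ z hz⟩
  rw [contDiffOn_infty_iff_fderiv_of_isOpen hopen]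
  refine ⟨fun z hz => (hZ z hz).differentiableAt.differentiableWithinAt, ?_⟩
  exact hsm.congr (fun z hz => (hZ z hz).fderiv)

end Pool.Agent.W991.GV
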